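import Pool.Agent.Hhelper24.LaguerreMain

/-!
# Monotonicity of a product of Laguerre-type multiple integrals

For every `n ≥ 1` the function `t ↦ F(t) G(t)` is strictly decreasing on `[0, ∞)`, and
`H(t) = 2 (F G)'(t) < 0` for every `t > 0`.

Idea of the proof: on the ordered chamber `0 < x_1 < ... < x_n` the density
`e^{-∑ x_j} ∏ (x_j - x_k)^2 ∏ (x_j + t)^{-1/2}` is log-supermodular, so that the four functions
(FKG) inequality applies to the decreasing function `T = ∑ 1/(x_j+t)` and the increasing function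
`D + t^{n+1} T`, `D = ∏ (x_j+t)`. The extra term turns the weak inequality into a strict one.
-/

set_option autoImplicit false

open MeasureTheory

namespace Pool.Agent.Results.MP_58c014_an.StrictDecrease

/-- The weight `P(x_1, ..., x_n) = exp(-∑ x_j) ∏_{k<j} (x_j - x_k)^2`. -/
noncomputable def P (n : ℕ) (x : Fin n → ℝ) : ℝ :=
  Real.exp (-∑ j, x j) * ∏ k, ∏ j ∈ Finset.Ioi k, (x j - x k) ^ 2

/-- `F(t) = ∫_{[0,∞)^n} P(x) ∏ (x_j + t)^{-1/2} dx`. -/
noncomputable def F (n : ℕ) (t : ℝ) : ℝ :=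
  ∫ x : Fin n → ℝ in Set.Ici 0, P n x * ∏ j, (x j + t) ^ (-(1/2) : ℝ)

/-- `G(t) = ∫_{[0,∞)^n} P(x) ∏ (x_j + t)^{1/2} dx`. -/
noncomputable def G (n : ℕ) (t : ℝ) : ℝ :=
  ∫ x : Fin n → ℝ in Set.Ici 0, P n x * ∏ j, (x j + t) ^ (1/2 : ℝ)

/-- The double integral
`H(t) = ∬ P(x) P(y) ∑ (1/(x_j+t) - 1/(y_j+t)) ∏ ((x_j+t)/(y_j+t))^{1/2} dx dy`. -/
noncomputable def H (n : ℕ) (t : ℝ) : ℝ :=
  ∫ z : (Fin n → ℝ) × (Fin n → ℝ) in Set.Ici 0 ×ˢ Set.Ici 0,
    P n z.1 * P n z.2 * (∑ j, (1 / (z.1 j + t) - 1 / (z.2 j + t))) *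
      ∏ j, ((z.1 j + t) / (z.2 j + t)) ^ (1/2 : ℝ)

open Pool.Agent.Hhelper24

lemma P_eq (n : ℕ) : P n = Laguerre.P n := rfl

lemma F_eq (n : ℕ) (t : ℝ) : F n t = ∫ x in Set.Ici 0, Laguerre.Phi n (-(1/2)) t x := rfl

lemma G_eq (n : ℕ) (t : ℝ) : G n t = ∫ x in Set.Ici 0, Laguerre.Phi n (1/2) t x := rfl

lemma H_eq (n : ℕ) {t : ℝ} (ht : 0 < t) :
    H n t = (∫ x in Set.Ici 0, Laguerre.Phi n (1/2) t x * Laguerre.T n t x) *
        (∫ x in Set.Ici 0, Laguerre.Phi n (-(1/2)) t x) -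
      (∫ x in Set.Ici 0, Laguerre.Phi n (1/2) t x) *
        (∫ x in Set.Ici 0, Laguerre.Phi n (-(1/2)) t x * Laguerre.T n t x) := by
  have hs : (-(1/2) : ℝ) = 1/2 ∨ (-(1/2) : ℝ) = -(1/2) := Or.inr rfl
  have hs' : (1/2 : ℝ) = 1/2 ∨ (1/2 : ℝ) = -(1/2) := Or.inl rfl
  have i1 := Laguerre.integrable_Phi n hs ht.le
  have i2 := Laguerre.integrable_Phi n hs' ht.le
  have i3 := Laguerre.integrable_Phi_mul_bdd n hs ht.le (Laguerre.T n t)
    (Laguerre.measurable_T n t) _ (Laguerre.T_abs_le n ht)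
  have i4 := Laguerre.integrable_Phi_mul_bdd n hs' ht.le (Laguerre.T n t)
    (Laguerre.measurable_T n t) _ (Laguerre.T_abs_le n ht)
  unfold H
  rw [← setIntegral_prod_mul, ← setIntegral_prod_mul, ← integral_sub]
  · refine setIntegral_congr_fun (measurableSet_Ici.prod measurableSet_Ici) ?_
    rintro ⟨x, y⟩ ⟨hx, hy⟩
    have hx' : ∀ j, 0 < x j + t := fun j => by
      have := hx j
      simp only [Pi.zero_apply] at this
      linarith
    have hy' : ∀ j, 0 < y j + t := fun j => by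
      have := hy j
      simp only [Pi.zero_apply] at this
      linarith
    simp only [P_eq, Laguerre.Phi, Laguerre.T]
    have e1 : ∏ j, ((x j + t) / (y j + t)) ^ (1/2 : ℝ) =
        (∏ j, (x j + t) ^ (1/2 : ℝ)) * ∏ j, (y j + t) ^ (-(1/2) : ℝ) := by
      rw [← Finset.prod_mul_distrib]
      refine Finset.prod_congr rfl fun j _ => ?_
      rw [Real.div_rpow (hx' j).le (hy' j).le, Real.rpow_neg (hy' j).le, div_eq_mul_inv]
    rw [e1, Finset.sum_sub_distrib]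
    ring
  · rw [← Measure.prod_restrict]
    exact i4.mul_prod i1
  · rw [← Measure.prod_restrict]
    exact i2.mul_prod i3

/-- **Main theorem.** For every `n ≥ 1`: the integrals defining `F` and `G` converge for `t ≥ 0`,
`t ↦ F(t) G(t)` is strictly decreasing on `[0, ∞)`, and for every `t > 0` the derivative of
`F G` at `t` is `H(t)/2`, and `H(t) < 0`. -/
theorem result (n : ℕ) (hn : 1 ≤ n) :
    (∀ t : ℝ, 0 ≤ t →
      IntegrableOn (fun x : Fin n → ℝ => P n x * ∏ j, (x j + t) ^ (-(1/2) : ℝ)) (Set.Ici 0) ∧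
      IntegrableOn (fun x : Fin n → ℝ => P n x * ∏ j, (x j + t) ^ (1/2 : ℝ)) (Set.Ici 0)) ∧
    StrictAntiOn (fun t => F n t * G n t) (Set.Ici 0) ∧
    ∀ t : ℝ, 0 < t → HasDerivAt (fun t => F n t * G n t) (H n t / 2) t ∧ H n t < 0 := by
  have hs : (-(1/2) : ℝ) = 1/2 ∨ (-(1/2) : ℝ) = -(1/2) := Or.inr rfl
  have hs' : (1/2 : ℝ) = 1/2 ∨ (1/2 : ℝ) = -(1/2) := Or.inl rfl
  have hderiv : ∀ t : ℝ, 0 < t → HasDerivAt (fun t => F n t * G n t) (H n t / 2) t := by
    intro t ht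
    have h1 := Laguerre.hasDerivAt_int n hs ht
    have h2 := Laguerre.hasDerivAt_int n hs' ht
    have h3 := h1.mul h2
    refine h3.congr_deriv ?_
    rw [H_eq n ht]
    ring
  have hneg : ∀ t : ℝ, 0 < t → H n t < 0 := by
    intro t ht
    rw [H_eq n ht]
    have := Laguerre.main_neg hn ht
    linarith
  refine ⟨fun t ht => ⟨Laguerre.integrable_Phi n hs ht, Laguerre.integrable_Phi n hs' ht⟩, ?_,
    fun t ht => ⟨hderiv t ht, hneg t ht⟩⟩
  refine strictAntiOn_of_deriv_neg (convex_Ici 0) ?_ ?_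
  · exact (Laguerre.continuousOn_int n hs).mul (Laguerre.continuousOn_int n hs')
  · intro t ht
    rw [interior_Ici] at ht
    rw [(hderiv t ht).deriv]
    have := hneg t ht
    linarith

end Pool.Agent.Results.MP_58c014_an.StrictDecrease
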